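import Pool.Agent.U828.KD.Even

/-!
# The totient form of Goldbach's conjecture near the values of an arbitrary function of higher convexity

Let `r ≥ 2`, `A`, `B`, `C`, `U`, `η > 0` and `0 < ε < 1` be fixed and let `N` be large. Let `f` be ANY real function on
`{1, …, x}`, `x ≥ N ^ (1 / r + η)`, with values in `[-B N, B N]`, whose differences of order `r` are all at least
`N / (x ^ r (log N) ^ C)`, or all at most the negative of this number. For all but at most `x / (log N) ^ U` of the `n ≤ x`,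
ALL the integers `m ≥ 2` at a distance of at most `(log N) ^ C` from `f(n)` are such that the system
`φ(m - x) + 1 = m - x`, `φ(m + x) + 1 = m + x` has an integral solution `x`, and that the number of its solutions in every
interval in `[-m, m]` of length at least `2 m / (log 2 m) ^ A` is the one predicted by Hardy and Littlewood, up to the
factor `1 ± ε`. In particular there are prime numbers `m - x`, `m + x` with `0 < x ≤ 2 m / (log 2 m) ^ (A - 1)`.

No regularity of `f` is assumed besides the sign and the size of the differences of order `r` (they need not be monotone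
nor nearly constant): for `r = 2` these are the strictly convex functions, for larger `r` there are only
`N ^ (1 / r + η)` points, so the numbers `m` run through sets of any power `N ^ θ`, `θ > 0`, of elements. The results for
polynomials with integral coefficients are due to Perelli and to Brüdern, Kawada and Wooley; the earlier results of this
problem treat products of families of small energy (`ProductsThinFamilies`), and real polynomials of bounded degree.

Definition used from `Pool.Agent.H560R3.GB` (starting files): `sing m`, the singular series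
`2 C₂ ∏_{p ∣ m, p > 2} (p - 1) / (p - 2)` with `C₂ = ∏_{p > 2} (1 - 1 / (p - 1) ^ 2)`.

Proof: the energy theorem `Pool.Agent.U828.KD.energy_r` (helper828: an `r`-th derivative test for arbitrary sequences, and
Fejér kernels): the integers near the values of `f` have, up to powers of `log N`, the least possible additive energy of
some order; and the theorem of the starting files on thin families of small energy.
-/

set_option autoImplicit false

namespace Pool.Agent.Results.MP_967f73_nt.HigherConvexFunctions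

open Finset
open Pool.Agent.H560R3.GB (sing)

/-- `x` is an integral solution of the system `φ(m - x) + 1 = m - x`, `φ(m + x) + 1 = m + x`. -/
def Solution (m : ℕ) (x : ℤ) : Prop :=
  1 ≤ (m : ℤ) - x ∧ 1 ≤ (m : ℤ) + x ∧ (Nat.totient ((m : ℤ) - x).toNat : ℤ) + 1 = (m : ℤ) - x ∧
    (Nat.totient ((m : ℤ) + x).toNat : ℤ) + 1 = (m : ℤ) + x

open Classical in
/-- the number of solutions `y₁ < x ≤ y₂` -/
noncomputable def count (m : ℕ) (y₁ y₂ : ℤ) : ℕ := ((Ioc y₁ y₂).filter (fun x => Solution m x)).card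

/-- the prediction of Hardy and Littlewood for it -/
noncomputable def predicted (m : ℕ) (y₁ y₂ : ℤ) : ℝ := sing (2 * m) * ((y₂ : ℝ) - y₁) / Real.log (2 * m) ^ 2

/-- The system is solvable for `m`, and the prediction holds with the relative error `ε` in every interval
`(y₁, y₂] ⊆ [-m, m]` of length at least `2 m / (log 2 m) ^ A`. -/
def Holds (ε : ℝ) (A m : ℕ) : Prop :=
  (∃ x : ℤ, Solution m x) ∧
  ∀ y₁ y₂ : ℤ, -(m : ℤ) ≤ y₁ → y₁ < y₂ → y₂ ≤ m → (2 * m : ℝ) / Real.log (2 * m) ^ A ≤ (y₂ : ℝ) - y₁ →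
    |(count m y₁ y₂ : ℝ) - predicted m y₁ y₂| ≤ ε * predicted m y₁ y₂

/-- The differences of order `r` of `f` on `{1, ..., x}` are all at least `κ`, or all at most `-κ`. Here `fwdDiff 1 f m`
is the difference `f (m + 1) - f m`. -/
def Bent (r x : ℕ) (f : ℕ → ℝ) (κ : ℝ) : Prop :=
  (∀ m, 1 ≤ m → m + r ≤ x → κ ≤ (fwdDiff 1)^[r] f m) ∨ (∀ m, 1 ≤ m → m + r ≤ x → (fwdDiff 1)^[r] f m ≤ -κ)

open Classical in
/-- The number of the `n ≤ x` for which `Holds ε A m` fails for some integer `m ≥ 2` with `|m - f(n)| ≤ (log N) ^ C`. -/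
noncomputable def exceptions (f : ℕ → ℝ) (ε : ℝ) (A C x N : ℕ) : ℕ :=
  ((Icc 1 x).filter (fun n : ℕ => ∃ m : ℕ, 2 ≤ m ∧ |(m : ℝ) - f n| ≤ Real.log N ^ C ∧ ¬ Holds ε A m)).card

lemma tot_prime (m : ℕ) (h1 : 1 ≤ m) (h : m.totient + 1 = m) : m.Prime := by
  have h2 : 2 ≤ m := by
    rcases Nat.lt_or_ge m 2 with h3 | h3
    · have : m = 1 := by omega
      rw [this, Nat.totient_one] at h
      omega
    · exact h3
  exact (Nat.totient_eq_iff_prime (by omega)).1 (by omega)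

lemma sol_iff (n : ℕ) (x : ℤ) (hx1 : -(n : ℤ) < x) (hx2 : x ≤ n) :
    Solution n x ↔ ((n : ℤ) + x).toNat.Prime ∧ (2 * n - ((n : ℤ) + x).toNat).Prime := by
  obtain ⟨u, hu⟩ : ∃ u : ℕ, (u : ℤ) = (n : ℤ) + x := ⟨((n : ℤ) + x).toNat, by omega⟩
  obtain ⟨v, hv⟩ : ∃ v : ℕ, (v : ℤ) = (n : ℤ) - x := ⟨((n : ℤ) - x).toNat, by omega⟩
  have hu' : ((n : ℤ) + x).toNat = u := by omega
  have hv' : ((n : ℤ) - x).toNat = v := by omega
  have huv : 2 * n - u = v := by omega
  unfold Solution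
  rw [hu', hv', huv, ← hu, ← hv]
  constructor
  · rintro ⟨h1, h2, h3, h4⟩
    exact ⟨tot_prime u (by omega) (by omega), tot_prime v (by omega) (by omega)⟩
  · rintro ⟨h1, h2⟩
    have a1 := h1.one_lt
    have a2 := h2.one_lt
    refine ⟨by omega, by omega, ?_, ?_⟩
    · rw [Nat.totient_prime h2]
      omega
    · rw [Nat.totient_prime h1]
      omega

lemma cnt_eq (n : ℕ) (y₁ y₂ : ℤ) (u₁ u₂ : ℕ) (h1 : -(n : ℤ) ≤ y₁) (h3 : y₂ ≤ n) (hu1 : (u₁ : ℤ) = (n : ℤ) + y₁)
    (hu2 : (u₂ : ℤ) = (n : ℤ) + y₂) : Pool.Agent.W93.PG.cnt (2 * n) u₁ u₂ = count n y₁ y₂ := by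
  classical
  unfold Pool.Agent.W93.PG.cnt count
  refine card_bij (fun (p : ℕ) _ => (p : ℤ) - n) ?_ ?_ ?_
  · intro p hp
    rw [mem_filter, mem_Ioc] at hp
    obtain ⟨⟨a1, a2⟩, a3, a4⟩ := hp
    rw [mem_filter, mem_Ioc]
    refine ⟨⟨by omega, by omega⟩, ?_⟩
    rw [sol_iff n _ (by omega) (by omega)]
    have : ((n : ℤ) + ((p : ℤ) - n)).toNat = p := by omega
    rw [this]
    exact ⟨a3, a4⟩
  · intro p _ p' _ hpp
    omega
  · intro x hx
    rw [mem_filter, mem_Ioc] at hx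
    obtain ⟨⟨b1, b2⟩, b3⟩ := hx
    rw [sol_iff n _ (by omega) (by omega)] at b3
    refine ⟨((n : ℤ) + x).toNat, ?_, by omega⟩
    rw [mem_filter, mem_Ioc]
    exact ⟨⟨by omega, by omega⟩, b3⟩

lemma window {n W : ℕ} {y₁ y₂ : ℤ} {u₁ u₂ : ℕ} (hu1 : (u₁ : ℤ) = (n : ℤ) + y₁) (hu2 : (u₂ : ℤ) = (n : ℤ) + y₂)
    (h4 : (2 * n : ℝ) / Real.log (2 * n) ^ W ≤ (y₂ : ℝ) - y₁) :
    ((2 * n : ℕ) : ℝ) / Real.log ((2 * n : ℕ) : ℝ) ^ W ≤ (u₂ : ℝ) - u₁ ∧ (u₂ : ℝ) - u₁ = (y₂ : ℝ) - y₁ := by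
  have hu1r : (u₁ : ℝ) = n + y₁ := by exact_mod_cast hu1
  have hu2r : (u₂ : ℝ) = n + y₂ := by exact_mod_cast hu2
  have e2 : (u₂ : ℝ) - u₁ = (y₂ : ℝ) - y₁ := by rw [hu1r, hu2r]; ring
  refine ⟨?_, e2⟩
  rw [e2]
  push_cast
  exact h4

lemma formula_of {ε : ℝ} {W n : ℕ} (h : Pool.Agent.W93.PG.WinP ε W (2 * n)) :
    ∀ y₁ y₂ : ℤ, -(n : ℤ) ≤ y₁ → y₁ < y₂ → y₂ ≤ n → (2 * n : ℝ) / Real.log (2 * n) ^ W ≤ (y₂ : ℝ) - y₁ →
    |(count n y₁ y₂ : ℝ) - predicted n y₁ y₂| ≤ ε * predicted n y₁ y₂ := by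
  intro y₁ y₂ h1 h2 h3 h4
  obtain ⟨u₁, hu1⟩ : ∃ u : ℕ, (u : ℤ) = (n : ℤ) + y₁ := ⟨((n : ℤ) + y₁).toNat, by omega⟩
  obtain ⟨u₂, hu2⟩ : ∃ u : ℕ, (u : ℤ) = (n : ℤ) + y₂ := ⟨((n : ℤ) + y₂).toNat, by omega⟩
  obtain ⟨h5, e2⟩ := window hu1 hu2 h4
  have h6 := h u₁ u₂ (by omega) (by omega) h5
  rw [cnt_eq n y₁ y₂ u₁ u₂ h1 h3 hu1 hu2, e2] at h6
  unfold predicted
  push_cast at h6
  exact h6

lemma holds_of {ε : ℝ} (hε1 : ε < 1) {W n : ℕ} (hn : 2 ≤ n) (h : Pool.Agent.W93.PG.WinP ε W (2 * n)) :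
    Holds ε W n := by
  classical
  have h1 := formula_of h
  refine ⟨?_, h1⟩
  have hn' : (2 : ℝ) ≤ n := by exact_mod_cast hn
  have hlog : 1 ≤ Real.log (2 * (n : ℝ)) := by
    rw [Real.le_log_iff_exp_le (by positivity)]
    have := Real.exp_one_lt_d9
    linarith
  have h2 := h1 (-(n : ℤ)) n le_rfl (by omega) le_rfl (by
    push_cast
    have h3 : (1 : ℝ) ≤ Real.log (2 * (n : ℝ)) ^ W := one_le_pow₀ hlog
    calc (2 * n : ℝ) / Real.log (2 * n) ^ W ≤ 2 * n := div_le_self (by positivity) h3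
      _ = _ := by ring)
  have hpos : 0 < predicted n (-(n : ℤ)) n := by
    unfold predicted
    have h3 := Pool.Agent.W93.GB.one_le_sing (2 * n)
    apply div_pos _ (by positivity)
    apply mul_pos (by linarith)
    push_cast
    linarith
  have h4 : 0 < (count n (-(n : ℤ)) n : ℝ) := by
    have := (abs_le.1 h2).1
    nlinarith
  have h5 : 0 < count n (-(n : ℤ)) n := by exact_mod_cast h4
  unfold count at h5
  obtain ⟨x, hx⟩ := card_pos.1 h5
  exact ⟨x, (mem_filter.1 hx).2⟩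

/-- twice a function with large differences -/
lemma bent_two {r x : ℕ} {f : ℕ → ℝ} {κ κ' : ℝ} (hl : κ' ≤ 2 * κ) (h : Bent r x f κ) :
    Bent r x (fun n => 2 * f n) κ' := by
  have e : ∀ m, (fwdDiff 1)^[r] (fun n => 2 * f n) m = 2 * (fwdDiff 1)^[r] f m := fun m =>
    Pool.Agent.U828.KD.dk_mul r 2 f m
  rcases h with h | h
  · left
    intro m h1 h2
    rw [e]
    have := h m h1 h2
    linarith
  · right
    intro m h1 h2
    rw [e]
    have := h m h1 h2
    linarith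

/-- **The totient system near the values of arbitrary functions of higher convexity.** Let `r ≥ 2`, `A`, `B`, `C`, `U`,
`η > 0` and `0 < ε < 1` be given. For all sufficiently large `N`, all `x ≥ N ^ (1 / r + η)` and EVERY function `f` with values
in `[-B N, B N]` on `{1, …, x}` whose differences of order `r` are all at least `N / (x ^ r (log N) ^ C)`, or all at most the
negative of this number: for all but at most `x / (log N) ^ U` of the `n ≤ x`, ALL the integers `m ≥ 2` with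
`|m - f(n)| ≤ (log N) ^ C` have the property `Holds ε A m`. -/
theorem result (r : ℕ) (hr : 2 ≤ r) (A B C U : ℕ) (η ε : ℝ) (hη : 0 < η) (hε : 0 < ε) (hε1 : ε < 1) :
    ∃ N₀ : ℕ, ∀ N : ℕ, N₀ ≤ N → ∀ x : ℕ, (N : ℝ) ^ (1 / (r : ℝ) + η) ≤ x →
    ∀ f : ℕ → ℝ, (∀ n ∈ Icc 1 x, |f n| ≤ B * N) → Bent r x f (N / ((x : ℝ) ^ r * Real.log N ^ C)) →
      (exceptions f ε A C x N : ℝ) ≤ x / Real.log N ^ U := by
  classical
  obtain ⟨N₀, h0⟩ := Pool.Agent.U828.KD.nearEven r hr A (2 * B) (C + 1) U 4 ε η hε hη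
    (fun k => ∀ m : ℕ, 2 ≤ m → k = 2 * m → Holds ε A m) (by
      rintro k - - hw m hm rfl
      exact holds_of hε1 hm hw)
  obtain ⟨n1, h1⟩ := Pool.Agent.H373R2.T7.ev_L' 2
  refine ⟨max N₀ n1, fun N hN x hx f hf hb => ?_⟩
  have hL := h1 N ((le_max_right _ _).trans hN)
  have hL0 : 0 < Real.log N := by linarith
  have hL1 : 1 ≤ Real.log N := by linarith
  have hLC : 2 * Real.log N ^ C ≤ Real.log N ^ (C + 1) := by
    rw [pow_succ, mul_comm (2 : ℝ)]
    exact mul_le_mul_of_nonneg_left hL (by positivity)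
  have hle : (N : ℝ) / ((x : ℝ) ^ r * Real.log N ^ (C + 1)) ≤ 2 * (N / ((x : ℝ) ^ r * Real.log N ^ C)) := by
    have hx0 : 0 ≤ (N : ℝ) / ((x : ℝ) ^ r * Real.log N ^ C) := by positivity
    refine le_trans ?_ (show (N : ℝ) / ((x : ℝ) ^ r * Real.log N ^ C) ≤ _ by linarith)
    have e1 : (N : ℝ) / ((x : ℝ) ^ r * Real.log N ^ (C + 1)) =
        N / ((x : ℝ) ^ r * Real.log N ^ C) / Real.log N := by
      rw [pow_succ, div_div, mul_assoc]
    rw [e1]
    exact div_le_self hx0 hL1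
  unfold exceptions
  refine h0 N ((le_max_left _ _).trans hN) x hx (fun n => 2 * f n) (fun n hn => ?_)
    (bent_two hle hb) _ (filter_subset _ _) ?_
  · rw [abs_mul, abs_of_pos (by norm_num : (0 : ℝ) < 2)]
    have := hf n hn
    push_cast
    linarith
  · intro n hn
    rw [mem_filter] at hn
    obtain ⟨m, h2, h3, h4⟩ := hn.2
    refine ⟨2 * m, by omega, even_two_mul m, ?_, fun h5 => h4 (h5 m h2 rfl)⟩
    have e1 : ((2 * m : ℕ) : ℝ) - 2 * f n = 2 * ((m : ℝ) - f n) := by push_cast; ring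
    rw [e1, abs_mul, abs_of_pos (by norm_num : (0 : ℝ) < 2)]
    linarith

end Pool.Agent.Results.MP_967f73_nt.HigherConvexFunctions
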