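import Pool.Agent.Results.MP_967f73_nt.ProgressionsShortIntervals

/-!
# The equation `p₁ + p₂ + q p₃ = N` in primes, for every coefficient `q ≤ N ^ (7 / 10 - ρ)`

For every large `N` and every `q ≤ N ^ (7 / 10 - ρ)` of the parity of `N` with `gcd(N, q) ≤ (log N)^T`
the equation `p₁ + p₂ + q p₃ = N` is solvable in primes, with at least `N² / (200 q (log N)³)` solutions
(the right order of magnitude).  More precisely, for all the odd primes `p ≤ N / (2 q)` with at most
`N / (q (log N)^A)` exceptions the even number `N - q p = 2 n` is such that the totient system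
`φ(n - x) + 1 = n - x`, `φ(n + x) + 1 = n + x` has at least one twentieth of the predicted number of
solutions in every interval of length at least `2 n / (log 2 n)^A`.

The members of the sequence `N - q p` are as sparse as `N ^ (3 / 10 + ρ)`; there is no exceptional `N`
and no exceptional `q`.  The proof applies the theorem on the exceptional set in the residue classes of
every modulus (project GS, `R460/GS`, starting files) to the class of `N` modulo `q`.
-/

set_option autoImplicit false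

namespace Pool.Agent.Results.MP_967f73_nt.LargeCoefficientTernary

open Finset
open Pool.Agent.Results.MP_967f73_nt.ProgressionsShortIntervals (Good good_of_WinL)
open Pool.Agent.R460.GS (WinL one_le_sing)
open Pool.Agent.Y883.T4 (badc)

open Classical in
/-- The odd primes `p ≤ N / (2 q)` for which `n = (N - q p) / 2` is not good. -/
noncomputable def exceptions (A N q : ℕ) : Finset ℕ :=
  (Icc 1 (N / (2 * q))).filter (fun p => p.Prime ∧ p ≠ 2 ∧ ¬ Good A ((N - q * p) / 2))

/-- The number of the solutions of `p₁ + p₂ + q p₃ = N` in primes. -/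
noncomputable def triples (N q : ℕ) : ℕ :=
  {z : ℕ × ℕ × ℕ | z.1.Prime ∧ z.2.1.Prime ∧ z.2.2.Prime ∧ z.1 + z.2.1 + q * z.2.2 = N}.ncard

lemma even_sub {N q p : ℕ} (hpar : N % 2 = q % 2) (hp : p.Prime) (hp2 : p ≠ 2) (h : q * p ≤ N) :
    2 ∣ N - q * p := by
  have hodd : p % 2 = 1 := (hp.eq_two_or_odd).resolve_left hp2
  have h1 : (q * p) % 2 = q % 2 := by
    rw [Nat.mul_mod, hodd, mul_one, Nat.mod_mod]
  omega

lemma le_half {N q p : ℕ} (_hq : 1 ≤ q) (hp : p ≤ N / (2 * q)) : 2 * (q * p) ≤ N := by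
  have h1 : p * (2 * q) ≤ N := (Nat.mul_le_mul_right _ hp).trans (Nat.div_mul_le_self _ _)
  calc 2 * (q * p) = p * (2 * q) := by ring
    _ ≤ N := h1

lemma inj_sub {N q p p' : ℕ} (hq : 1 ≤ q) (h : q * p ≤ N) (h' : q * p' ≤ N)
    (he : N - q * p = N - q * p') : p = p' := by
  have h1 : q * p = q * p' := by omega
  exact Nat.eq_of_mul_eq_mul_left (by omega) h1

open Classical in
/-- the primes whose numbers `N - q p` are not good -/
lemma card_bad (P : ℕ → Prop) {N q : ℕ} (hq : 1 ≤ q) (hN : 1 ≤ N)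
    (hpar : N % 2 = q % 2) :
    ((Icc 1 (N / (2 * q))).filter (fun p => p.Prime ∧ p ≠ 2 ∧ ¬ P (N - q * p))).card ≤
      (badc P N q N).card := by
  apply card_le_card_of_injOn (fun p => N - q * p)
  · intro p hp
    rw [mem_coe, mem_filter, mem_Icc] at hp
    obtain ⟨⟨a1, a2⟩, a3, a4, a5⟩ := hp
    have h1 := le_half hq a2
    show N - q * p ∈ badc P N q N
    unfold badc
    rw [mem_filter, mem_Icc]
    refine ⟨⟨by omega, by omega⟩, even_sub hpar a3 a4 (by omega), ?_, a5⟩
    have h2 : (N - q * p) + q * p = N := by omega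
    conv_rhs => rw [← h2]
    rw [Nat.add_mul_mod_self_left]
  · intro p hp p' hp' he
    rw [mem_coe, mem_filter, mem_Icc] at hp hp'
    have h1 := le_half hq hp.1.2
    have h2 := le_half hq hp'.1.2
    exact inj_sub hq (by omega) (by omega) he

/-- counting the solutions with a given third prime -/
lemma triples_ge {N q : ℕ} (hq : 1 ≤ q) (G : Finset ℕ) (hG : ∀ p ∈ G, p.Prime ∧ q * p ≤ N) :
    ∑ p ∈ G, Pool.Agent.W93.PG.cnt (N - q * p) 0 (N - q * p) ≤ triples N q := by
  classical
  set F : (p : ℕ) → Finset ℕ := fun p =>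
    (Ioc 0 (N - q * p)).filter (fun r => r.Prime ∧ ((N - q * p) - r).Prime) with hF
  have h1 : ∑ p ∈ G, Pool.Agent.W93.PG.cnt (N - q * p) 0 (N - q * p) = (G.sigma F).card := by
    rw [card_sigma]
    rfl
  rw [h1]
  unfold triples
  rw [← Set.ncard_coe_finset]
  have hfin : {z : ℕ × ℕ × ℕ | z.1.Prime ∧ z.2.1.Prime ∧ z.2.2.Prime ∧
      z.1 + z.2.1 + q * z.2.2 = N}.Finite := by
    apply ((Set.finite_Iic N).prod ((Set.finite_Iic N).prod (Set.finite_Iic N))).subset
    rintro ⟨a, b, c⟩ ⟨h1, h2, h3, h4⟩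
    simp only at h4
    have h5 : c ≤ q * c := Nat.le_mul_of_pos_left c (by omega)
    simp only [Set.mem_prod, Set.mem_Iic]
    omega
  refine Set.ncard_le_ncard_of_injOn (fun z : (Σ _ : ℕ, ℕ) => (z.2, (N - q * z.1) - z.2, z.1))
    ?_ ?_ hfin
  · rintro ⟨p, r⟩ hz
    rw [mem_coe, mem_sigma] at hz
    obtain ⟨h2, h3⟩ := hz
    simp only [hF, mem_filter, mem_Ioc] at h3
    obtain ⟨⟨h4, h5⟩, h6, h7⟩ := h3
    have h8 := hG p h2
    refine ⟨h6, h7, h8.1, ?_⟩
    simp only
    have := h8.2
    omega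
  · rintro ⟨p, r⟩ hz ⟨p', r'⟩ hz' he
    simp only [Prod.mk.injEq] at he
    obtain ⟨h2, h3, h4⟩ := he
    subst h2; subst h4
    rfl

/-- Let `ρ > 0`, `A` and `T` be given.  For all sufficiently large `N` and every `q` with
`1 ≤ q ≤ N ^ (7 / 10 - ρ)`, `q ≡ N (mod 2)` and `gcd(N, q) ≤ (log N)^T`: for all odd primes
`p ≤ N / (2 q)` with at most `N / (q (log N)^A)` exceptions the number `n = (N - q p) / 2` is good, and
the equation `p₁ + p₂ + q p₃ = N` has at least `N² / (200 q (log N)³)` solutions in primes. -/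
theorem result (ρ : ℝ) (hρ : 0 < ρ) (A T : ℕ) : ∃ N₀ : ℕ, ∀ N : ℕ, N₀ ≤ N → ∀ q : ℕ, 1 ≤ q →
    (q : ℝ) ≤ (N : ℝ) ^ (7 / 10 - ρ) → (Nat.gcd N q : ℝ) ≤ Real.log N ^ T → N % 2 = q % 2 →
      ((exceptions A N q).card : ℝ) ≤ (N : ℝ) / (q * Real.log N ^ A) ∧
      (N : ℝ) ^ 2 / (200 * q * Real.log N ^ 3) ≤ (triples N q : ℝ) := by
  classical
  obtain ⟨N₁, h1⟩ := Pool.Agent.R460.GS.gs_all ρ hρ A T
  obtain ⟨N₃, h3⟩ := Pool.Agent.R460.GS.gs_all ρ hρ 3 T
  obtain ⟨N₂, h2⟩ := Filter.eventually_atTop.1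
    (Pool.Agent.Y614.GJ.Core.ev_log 4 (s := 1 / 10) (by norm_num) 1000)
  refine ⟨N₁ + N₂ + N₃ + 100, fun N hN q hq1 hqN hgcd hpar => ?_⟩
  obtain ⟨hL, hLp⟩ := h2 N (by omega)
  have hN100 : (100 : ℝ) ≤ N := by exact_mod_cast (by omega : 100 ≤ N)
  have hN0 : (0 : ℝ) < N := by linarith
  have hN1 : (1 : ℝ) ≤ N := by linarith
  have hq0 : (0 : ℝ) < q := by exact_mod_cast hq1
  obtain ⟨L, hLdef⟩ : ∃ L, L = Real.log (N : ℝ) := ⟨_, rfl⟩
  rw [← hLdef] at hL hLp hgcd ⊢
  have hL0 : 0 < L := by linarith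
  have hbad : ∀ B : ℕ, ((badc (WinL B) N q N).card : ℝ) ≤ (N : ℝ) / (q * Real.log N ^ B) →
      (((Icc 1 (N / (2 * q))).filter
        (fun p => p.Prime ∧ p ≠ 2 ∧ ¬ WinL B (N - q * p))).card : ℝ) ≤ (N : ℝ) / (q * L ^ B) := by
    intro B hB
    rw [← hLdef] at hB
    refine le_trans ?_ hB
    exact_mod_cast card_bad (WinL B) hq1 (by omega) hpar
  constructor
  · have e1 := hbad A (h1 N (by omega) q hq1 hqN N (by rw [← hLdef]; exact hgcd))
    refine le_trans ?_ e1
    norm_cast
    apply card_le_card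
    intro p hp
    unfold exceptions at hp
    rw [mem_filter, mem_Icc] at hp ⊢
    obtain ⟨⟨a1, a2⟩, a3, a4, a5⟩ := hp
    refine ⟨⟨a1, a2⟩, a3, a4, fun h => a5 ?_⟩
    have h4 := le_half hq1 a2
    have h5 := even_sub hpar a3 a4 (by omega)
    have h6 : 2 * ((N - q * p) / 2) = N - q * p := Nat.mul_div_cancel' h5
    apply good_of_WinL A A _ (by omega) le_rfl
    rw [h6]
    exact h
  · have e3 := hbad 3 (h3 N (by omega) q hq1 hqN N (by rw [← hLdef]; exact hgcd))
    -- the good primes
    obtain ⟨M, hM⟩ : ∃ M, M = N / (2 * q) := ⟨_, rfl⟩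
    rw [← hM] at e3
    set G := (Icc 1 M).filter (fun p => p.Prime ∧ p ≠ 2 ∧ WinL 3 (N - q * p)) with hG
    -- `q L ^ 4 ≤ N`
    have hqL : (q : ℝ) * L ^ 4 ≤ N := by
      calc (q : ℝ) * L ^ 4 ≤ (N : ℝ) ^ (7 / 10 : ℝ) * (N : ℝ) ^ (1 / 10 : ℝ) := by
            apply mul_le_mul (hqN.trans (Real.rpow_le_rpow_of_exponent_le hN1 (by linarith))) hLp
              (by positivity) (by positivity)
        _ = (N : ℝ) ^ (8 / 10 : ℝ) := by rw [← Real.rpow_add hN0]; norm_num
        _ ≤ (N : ℝ) ^ (1 : ℝ) := Real.rpow_le_rpow_of_exponent_le hN1 (by norm_num)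
        _ = N := Real.rpow_one _
    obtain ⟨R, hR⟩ : ∃ R, R = (N : ℝ) / q := ⟨_, rfl⟩
    have hR0 : 0 < R := by rw [hR]; positivity
    have hRL : L ^ 4 ≤ R := by
      rw [hR, le_div_iff₀ hq0]; linarith
    have hMR : R / 2 - 1 ≤ (M : ℝ) := by
      have := Nat.lt_div_mul_add (show 0 < 2 * q by omega) (a := N)
      rw [← hM] at this
      have h4 : (N : ℝ) < (M : ℝ) * (2 * q) + 2 * q := by exact_mod_cast this
      rw [hR]
      rw [div_div, sub_le_iff_le_add, div_le_iff₀ (by positivity)]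
      nlinarith
    have hMle : (M : ℝ) ≤ N := by
      have : M ≤ N := by rw [hM]; exact Nat.div_le_self _ _
      exact_mod_cast this
    have hL4 : (10 : ℝ) ^ 12 ≤ L ^ 4 := by
      calc (10 : ℝ) ^ 12 = 1000 ^ 4 := by norm_num
        _ ≤ L ^ 4 := pow_le_pow_left₀ (by norm_num) hL 4
    have hM2 : (2 : ℝ) ≤ M := by
      have : (10 : ℝ) ^ 12 ≤ R := hL4.trans hRL
      nlinarith
    have hM2' : 2 ≤ M := by exact_mod_cast hM2
    -- Chebyshev
    have hcheb := Chebyshev.pi_ge M
    have hlogM : Real.log M ≤ L := by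
      rw [hLdef]; exact Real.log_le_log (by linarith) hMle
    have hlogM0 : 0 < Real.log M := Real.log_pos (by linarith)
    have hlogM1 : Real.log ((M : ℝ) + 1) ≤ L + 1 := by
      have : (M : ℝ) + 1 ≤ N * Real.exp 1 := by
        have := Real.add_one_lt_exp (show (1 : ℝ) ≠ 0 by norm_num)
        nlinarith
      calc Real.log ((M : ℝ) + 1) ≤ Real.log (N * Real.exp 1) := Real.log_le_log (by linarith) this
        _ = L + 1 := by rw [Real.log_mul (by positivity) (by positivity), Real.log_exp, hLdef]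
    have hlog2 := Real.log_two_gt_d9
    have hpi : (34 / 100) * (R / L) - 3 ≤ (Nat.primeCounting M : ℝ) := by
      refine le_trans ?_ hcheb
      have h5 : 0 ≤ (M : ℝ) * Real.log 2 - Real.log (M + 1) := by
        have : (10 : ℝ) ^ 12 ≤ R := hL4.trans hRL
        have h6 : L ≤ R / 100 := by
          have : L * 1000 ≤ L ^ 4 := by
            have e : L ^ 4 = L * L ^ 3 := by ring
            rw [e]
            apply mul_le_mul_of_nonneg_left _ hL0.le
            calc (1000 : ℝ) ≤ 1000 ^ 3 := by norm_num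
              _ ≤ L ^ 3 := pow_le_pow_left₀ (by norm_num) hL 3
          linarith
        nlinarith
      rw [le_div_iff₀ hlogM0]
      have h6 : ((34 / 100) * (R / L) - 3) * Real.log M ≤ (34 / 100) * R - 3 * Real.log M := by
        have h7 : R / L * Real.log M ≤ R := by
          rw [div_mul_eq_mul_div, div_le_iff₀ hL0]
          exact mul_le_mul_of_nonneg_left hlogM hR0.le
        nlinarith
      refine h6.trans ?_
      have h8 : (M : ℝ) * Real.log 2 ≥ (R / 2 - 1) * 0.69 := by nlinarith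
      have h9 : L ≤ R / 10 ^ 6 := by
        have : L * 10 ^ 6 ≤ L ^ 4 := by
          have e : L ^ 4 = L * L ^ 3 := by ring
          rw [e]
          apply mul_le_mul_of_nonneg_left _ hL0.le
          calc (10 : ℝ) ^ 6 ≤ 1000 ^ 3 := by norm_num
            _ ≤ L ^ 3 := pow_le_pow_left₀ (by norm_num) hL 3
        rw [le_div_iff₀ (by norm_num)]
        linarith
      have : (10 : ℝ) ^ 12 ≤ R := hL4.trans hRL
      nlinarith
    -- the number of the good primes
    have hcardG : (Nat.primeCounting M : ℝ) ≤ (G.card : ℝ) + 1 + (N : ℝ) / (q * L ^ 3) := by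
      have h5 : Nat.primeCounting M ≤ G.card + 1 +
          ((Icc 1 M).filter (fun p => p.Prime ∧ p ≠ 2 ∧ ¬ WinL 3 (N - q * p))).card := by
        have h6 : Nat.primeCounting M = ((Icc 1 M).filter Nat.Prime).card := by
          rw [Nat.primeCounting, Nat.primeCounting', Nat.count_eq_card_filter_range]
          congr 1
          ext p
          simp only [mem_filter, mem_range, mem_Icc]
          constructor
          · rintro ⟨a, b⟩; exact ⟨⟨b.one_lt.le, by omega⟩, b⟩
          · rintro ⟨⟨a, b⟩, c⟩; exact ⟨by omega, c⟩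
        rw [h6]
        have h7 : (Icc 1 M).filter Nat.Prime ⊆ (G ∪ {2}) ∪
            ((Icc 1 M).filter (fun p => p.Prime ∧ p ≠ 2 ∧ ¬ WinL 3 (N - q * p))) := by
          intro p hp
          rw [mem_filter] at hp
          simp only [hG, mem_union, mem_filter, mem_singleton]
          by_cases h8 : p = 2
          · tauto
          · by_cases h9 : WinL 3 (N - q * p)
            · tauto
            · tauto
        refine (card_le_card h7).trans ((card_union_le _ _).trans ?_)
        have := card_union_le G {2}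
        rw [card_singleton] at this
        omega
      have h6 : (Nat.primeCounting M : ℝ) ≤ (G.card : ℝ) + 1 +
          (((Icc 1 M).filter (fun p => p.Prime ∧ p ≠ 2 ∧ ¬ WinL 3 (N - q * p))).card : ℝ) := by
        exact_mod_cast h5
      linarith
    have hGge : (3 / 10) * (R / L) ≤ (G.card : ℝ) := by
      have h5 : (N : ℝ) / (q * L ^ 3) = R / L * (1 / L ^ 2) := by
        rw [hR]; field_simp
      have h6 : R / L * (1 / L ^ 2) ≤ R / L * (1 / 100) := by
        apply mul_le_mul_of_nonneg_left _ (by positivity)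
        apply one_div_le_one_div_of_le (by norm_num)
        nlinarith
      have h7 : (400 : ℝ) ≤ R / L := by
        rw [le_div_iff₀ hL0]
        have : L * 10 ^ 6 ≤ L ^ 4 := by
          have e : L ^ 4 = L * L ^ 3 := by ring
          rw [e]
          apply mul_le_mul_of_nonneg_left _ hL0.le
          calc (10 : ℝ) ^ 6 ≤ 1000 ^ 3 := by norm_num
            _ ≤ L ^ 3 := pow_le_pow_left₀ (by norm_num) hL 3
        nlinarith
      rw [h5] at hcardG
      linarith
    -- the solutions
    have hsol := triples_ge (N := N) (q := q) hq1 G (by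
      intro p hp
      rw [hG, mem_filter, mem_Icc] at hp
      have := le_half hq1 (show p ≤ N / (2 * q) by rw [← hM]; exact hp.1.2)
      exact ⟨hp.2.1, by omega⟩)
    have hsol' : ∑ p ∈ G, ((Pool.Agent.W93.PG.cnt (N - q * p) 0 (N - q * p) : ℕ) : ℝ) ≤
        (triples N q : ℝ) := by exact_mod_cast hsol
    refine le_trans ?_ hsol'
    have heach : ∀ p ∈ G, (N : ℝ) / (40 * L ^ 2) ≤
        ((Pool.Agent.W93.PG.cnt (N - q * p) 0 (N - q * p) : ℕ) : ℝ) := by
      intro p hp
      rw [hG, mem_filter, mem_Icc] at hp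
      obtain ⟨⟨a1, a2⟩, a3, a4, a5⟩ := hp
      have h5 := le_half hq1 (show p ≤ N / (2 * q) by rw [← hM]; exact a2)
      obtain ⟨m, hm⟩ : ∃ m, m = N - q * p := ⟨_, rfl⟩
      rw [← hm] at a5 ⊢
      have hm1 : N ≤ 2 * m := by omega
      have hm2 : m ≤ N := by omega
      have hm1' : (N : ℝ) ≤ 2 * m := by exact_mod_cast hm1
      have hm2' : (m : ℝ) ≤ N := by exact_mod_cast hm2
      have hm0 : (50 : ℝ) ≤ m := by linarith
      have hlm : 1 ≤ Real.log m := by
        rw [Real.le_log_iff_exp_le (by linarith)]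
        have := Real.exp_one_lt_d9
        linarith
      have hlm2 : Real.log m ≤ L := by
        rw [hLdef]; exact Real.log_le_log (by linarith) hm2'
      have h6 := a5 0 m (by omega) le_rfl (by
        push_cast
        rw [sub_zero]
        exact div_le_self (by linarith) (one_le_pow₀ hlm))
      refine le_trans ?_ h6
      push_cast
      rw [sub_zero]
      have h7 := one_le_sing m
      have h8 : (m : ℝ) / L ^ 2 ≤ Pool.Agent.H560R3.GB.sing m * m / Real.log m ^ 2 := by
        apply div_le_div₀ (by positivity) (by nlinarith) (by positivity)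
        exact pow_le_pow_left₀ (by linarith) hlm2 2
      have h9 : (N : ℝ) / (40 * L ^ 2) ≤ 1 / 20 * ((m : ℝ) / L ^ 2) := by
        rw [div_le_iff₀ (by positivity)]
        have : 1 / 20 * ((m : ℝ) / L ^ 2) * (40 * L ^ 2) = 2 * m := by field_simp; ring
        rw [this]
        exact hm1'
      linarith
    have h10 : (G.card : ℝ) * ((N : ℝ) / (40 * L ^ 2)) ≤
        ∑ p ∈ G, ((Pool.Agent.W93.PG.cnt (N - q * p) 0 (N - q * p) : ℕ) : ℝ) := by
      rw [← nsmul_eq_mul]
      exact card_nsmul_le_sum _ _ _ heach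
    refine le_trans ?_ h10
    have h11 : (N : ℝ) ^ 2 / (200 * q * L ^ 3) = (1 / 5) * (R / L) * ((N : ℝ) / (40 * L ^ 2)) := by
      rw [hR]; field_simp; norm_num
    rw [h11]
    apply mul_le_mul_of_nonneg_right _ (by positivity)
    have : 0 ≤ R / L := by positivity
    linarith

end Pool.Agent.Results.MP_967f73_nt.LargeCoefficientTernary
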