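import Pool.Agent.U108.ML.G
import Pool.Agent.U108.ML.H

/-!
# The totient form of Goldbach's conjecture near products of thin families, and near determinants

Let `u_k : I_k → ℤ`, `1 ≤ k ≤ d`, be `d ≥ 2` arbitrary finite families of integers, `|u_k| ≤ N_k`, whose additive energy
of some order is minimal up to powers of `log P`, `P = N_1 ⋯ N_d`: the primes, the powers of a fixed exponent, the values
of a polynomial at integers or at primes, any subset of `[1, N_k]` with at least `N_k / (log P) ^ C` elements, ... For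
almost all `i ∈ I_1 × ⋯ × I_d`, all the even integers close to

  `c u_1(i_1) ⋯ u_d(i_d) + R_1(i) + ⋯ + R_d(i)`

satisfy Goldbach's conjecture (here: the totient form), with the expected number of representations in all long windows,
where `R_k` is an ARBITRARY function with integral values which does not depend on the `k`-th coordinate. (For `d = 2`: the
even integers near `c u(i) v(j) + f(i) + g(j)`, for arbitrary functions `f`, `g`.) In particular this holds near the
determinants of the `d × d` matrices whose diagonal entries run through thin families, the entries off the diagonal being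
ARBITRARY fixed integers.

Definition used from `Pool.Agent.H560R3.GB` (starting files): `sing m`, the singular series
`2 C₂ ∏_{p ∣ m, p > 2} (p - 1) / (p - 2)` with `C₂ = ∏_{p > 2} (1 - 1 / (p - 1) ^ 2)`.

Method (new, `Pool.Agent.U108.ML`): by the inequalities of Cauchy, Schwarz and Hölder the functions `R_k` are removed from
the exponential sum, which leads to a multilinear exponential sum with coefficients, the numbers of representations by sums
of `2 h` elements of the `k`-th family; these are bounded in mean square by the energy, so a power of the sum is bounded by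
the number of the solutions of `‖θ x_1 ⋯ x_{d-1}‖ < 1 / N_d`; a mean value of a power of this number over `θ` is bounded by
means of the divisor function. Hence the integers above have an additive energy of high order which is minimal up to powers
of the logarithm (`Pool.Agent.U108.ML.energy`), and the theorem of the starting files on thin families of this kind
(`R459.near_double`) applies.
-/

set_option autoImplicit false

namespace Pool.Agent.Results.MP_967f73_nt.ProductsThinFamilies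

open Finset
open Pool.Agent.H560R3.GB (sing)

/-- `x` is an integral solution of the system `φ(m - x) + 1 = m - x`, `φ(m + x) + 1 = m + x`. -/
def Solution (m : ℕ) (x : ℤ) : Prop :=
  1 ≤ (m : ℤ) - x ∧ 1 ≤ (m : ℤ) + x ∧ (Nat.totient ((m : ℤ) - x).toNat : ℤ) + 1 = (m : ℤ) - x ∧
    (Nat.totient ((m : ℤ) + x).toNat : ℤ) + 1 = (m : ℤ) + x

open Classical in
/-- the number of solutions `y₁ < x ≤ y₂` -/
noncomputable def count (m : ℕ) (y₁ y₂ : ℤ) : ℕ := ((Ioc y₁ y₂).filter (fun x => Solution m x)).card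

/-- the prediction of Hardy and Littlewood for it -/
noncomputable def predicted (m : ℕ) (y₁ y₂ : ℤ) : ℝ := sing (2 * m) * ((y₂ : ℝ) - y₁) / Real.log (2 * m) ^ 2

/-- The system is solvable for `m`, and the prediction holds with the relative error `ε` in every interval
`(y₁, y₂] ⊆ [-m, m]` of length at least `2 m / (log 2 m) ^ A`. -/
def Holds (ε : ℝ) (A m : ℕ) : Prop :=
  (∃ x : ℤ, Solution m x) ∧
  ∀ y₁ y₂ : ℤ, -(m : ℤ) ≤ y₁ → y₁ < y₂ → y₂ ≤ m → (2 * m : ℝ) / Real.log (2 * m) ^ A ≤ (y₂ : ℝ) - y₁ →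
    |(count m y₁ y₂ : ℝ) - predicted m y₁ y₂| ≤ ε * predicted m y₁ y₂

/-- The additive energy of order `h` of a finite family `u`: the number of the solutions of
`u(x_1) + ⋯ + u(x_h) = u(y_1) + ⋯ + u(y_h)`. -/
noncomputable def energy (h : ℕ) {ι : Type} [Fintype ι] (u : ι → ℤ) : ℕ :=
  Nat.card {q : (Fin h → ι) × (Fin h → ι) // ∑ j, u (q.1 j) = ∑ j, u (q.2 j)}

/-- `u` is a finite family of integers in `[-N, N]`, and its energy of order `h` is at most `(log P) ^ C` times
`(number of the elements) ^ (2 h) / N`. -/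
def Thin (h C P N : ℕ) {ι : Type} [Fintype ι] (u : ι → ℤ) : Prop :=
  (∀ i, |u i| ≤ N) ∧ (energy h u : ℝ) * N ≤ Real.log P ^ C * (Fintype.card ι : ℝ) ^ (2 * h)

open Classical in
/-- The number of the `i` for which `Holds ε A n` fails for some integer `n ≥ 2` with `|n - v i| ≤ (log P) ^ W`. -/
noncomputable def exceptions {ι : Type} [Fintype ι] (ε : ℝ) (A W P : ℕ) (v : ι → ℤ) : ℕ :=
  ((univ : Finset ι).filter (fun i => ∃ n : ℕ, 2 ≤ n ∧ |(n : ℝ) - (v i : ℝ)| ≤ Real.log P ^ W ∧ ¬ Holds ε A n)).card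

lemma tot_prime (m : ℕ) (h1 : 1 ≤ m) (h : m.totient + 1 = m) : m.Prime := by
  have h2 : 2 ≤ m := by
    rcases Nat.lt_or_ge m 2 with h3 | h3
    · have : m = 1 := by omega
      rw [this, Nat.totient_one] at h
      omega
    · exact h3
  exact (Nat.totient_eq_iff_prime (by omega)).1 (by omega)

lemma sol_iff (n : ℕ) (x : ℤ) (hx1 : -(n : ℤ) < x) (hx2 : x ≤ n) :
    Solution n x ↔ ((n : ℤ) + x).toNat.Prime ∧ (2 * n - ((n : ℤ) + x).toNat).Prime := by
  obtain ⟨u, hu⟩ : ∃ u : ℕ, (u : ℤ) = (n : ℤ) + x := ⟨((n : ℤ) + x).toNat, by omega⟩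
  obtain ⟨v, hv⟩ : ∃ v : ℕ, (v : ℤ) = (n : ℤ) - x := ⟨((n : ℤ) - x).toNat, by omega⟩
  have hu' : ((n : ℤ) + x).toNat = u := by omega
  have hv' : ((n : ℤ) - x).toNat = v := by omega
  have huv : 2 * n - u = v := by omega
  unfold Solution
  rw [hu', hv', huv, ← hu, ← hv]
  constructor
  · rintro ⟨h1, h2, h3, h4⟩
    exact ⟨tot_prime u (by omega) (by omega), tot_prime v (by omega) (by omega)⟩
  · rintro ⟨h1, h2⟩
    have a1 := h1.one_lt
    have a2 := h2.one_lt
    refine ⟨by omega, by omega, ?_, ?_⟩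
    · rw [Nat.totient_prime h2]
      omega
    · rw [Nat.totient_prime h1]
      omega

lemma cnt_eq (n : ℕ) (y₁ y₂ : ℤ) (u₁ u₂ : ℕ) (h1 : -(n : ℤ) ≤ y₁) (h3 : y₂ ≤ n) (hu1 : (u₁ : ℤ) = (n : ℤ) + y₁)
    (hu2 : (u₂ : ℤ) = (n : ℤ) + y₂) : Pool.Agent.W93.PG.cnt (2 * n) u₁ u₂ = count n y₁ y₂ := by
  classical
  unfold Pool.Agent.W93.PG.cnt count
  refine card_bij (fun (p : ℕ) _ => (p : ℤ) - n) ?_ ?_ ?_
  · intro p hp
    rw [mem_filter, mem_Ioc] at hp
    obtain ⟨⟨a1, a2⟩, a3, a4⟩ := hp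
    rw [mem_filter, mem_Ioc]
    refine ⟨⟨by omega, by omega⟩, ?_⟩
    rw [sol_iff n _ (by omega) (by omega)]
    have : ((n : ℤ) + ((p : ℤ) - n)).toNat = p := by omega
    rw [this]
    exact ⟨a3, a4⟩
  · intro p _ p' _ hpp
    omega
  · intro x hx
    rw [mem_filter, mem_Ioc] at hx
    obtain ⟨⟨b1, b2⟩, b3⟩ := hx
    rw [sol_iff n _ (by omega) (by omega)] at b3
    refine ⟨((n : ℤ) + x).toNat, ?_, by omega⟩
    rw [mem_filter, mem_Ioc]
    exact ⟨⟨by omega, by omega⟩, b3⟩

lemma window {n W : ℕ} {y₁ y₂ : ℤ} {u₁ u₂ : ℕ} (hu1 : (u₁ : ℤ) = (n : ℤ) + y₁) (hu2 : (u₂ : ℤ) = (n : ℤ) + y₂)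
    (h4 : (2 * n : ℝ) / Real.log (2 * n) ^ W ≤ (y₂ : ℝ) - y₁) :
    ((2 * n : ℕ) : ℝ) / Real.log ((2 * n : ℕ) : ℝ) ^ W ≤ (u₂ : ℝ) - u₁ ∧ (u₂ : ℝ) - u₁ = (y₂ : ℝ) - y₁ := by
  have hu1r : (u₁ : ℝ) = n + y₁ := by exact_mod_cast hu1
  have hu2r : (u₂ : ℝ) = n + y₂ := by exact_mod_cast hu2
  have e2 : (u₂ : ℝ) - u₁ = (y₂ : ℝ) - y₁ := by rw [hu1r, hu2r]; ring
  refine ⟨?_, e2⟩
  rw [e2]
  push_cast
  exact h4

lemma formula_of {ε : ℝ} {W n : ℕ} (h : Pool.Agent.W93.PG.WinP ε W (2 * n)) :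
    ∀ y₁ y₂ : ℤ, -(n : ℤ) ≤ y₁ → y₁ < y₂ → y₂ ≤ n → (2 * n : ℝ) / Real.log (2 * n) ^ W ≤ (y₂ : ℝ) - y₁ →
    |(count n y₁ y₂ : ℝ) - predicted n y₁ y₂| ≤ ε * predicted n y₁ y₂ := by
  intro y₁ y₂ h1 h2 h3 h4
  obtain ⟨u₁, hu1⟩ : ∃ u : ℕ, (u : ℤ) = (n : ℤ) + y₁ := ⟨((n : ℤ) + y₁).toNat, by omega⟩
  obtain ⟨u₂, hu2⟩ : ∃ u : ℕ, (u : ℤ) = (n : ℤ) + y₂ := ⟨((n : ℤ) + y₂).toNat, by omega⟩
  obtain ⟨h5, e2⟩ := window hu1 hu2 h4
  have h6 := h u₁ u₂ (by omega) (by omega) h5
  rw [cnt_eq n y₁ y₂ u₁ u₂ h1 h3 hu1 hu2, e2] at h6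
  unfold predicted
  push_cast at h6
  exact h6

lemma holds_of {ε : ℝ} (hε1 : ε < 1) {W n : ℕ} (hn : 2 ≤ n) (h : Pool.Agent.W93.PG.WinP ε W (2 * n)) :
    Holds ε W n := by
  classical
  have h1 := formula_of h
  refine ⟨?_, h1⟩
  have hn' : (2 : ℝ) ≤ n := by exact_mod_cast hn
  have hlog : 1 ≤ Real.log (2 * (n : ℝ)) := by
    rw [Real.le_log_iff_exp_le (by positivity)]
    have := Real.exp_one_lt_d9
    linarith
  have h2 := h1 (-(n : ℤ)) n le_rfl (by omega) le_rfl (by
    push_cast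
    have h3 : (1 : ℝ) ≤ Real.log (2 * (n : ℝ)) ^ W := one_le_pow₀ hlog
    calc (2 * n : ℝ) / Real.log (2 * n) ^ W ≤ 2 * n := div_le_self (by positivity) h3
      _ = _ := by ring)
  have hpos : 0 < predicted n (-(n : ℤ)) n := by
    unfold predicted
    have h3 := Pool.Agent.W93.GB.one_le_sing (2 * n)
    apply div_pos _ (by positivity)
    apply mul_pos (by linarith)
    push_cast
    linarith
  have h4 : 0 < (count n (-(n : ℤ)) n : ℝ) := by
    have := (abs_le.1 h2).1
    nlinarith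
  have h5 : 0 < count n (-(n : ℤ)) n := by exact_mod_cast h4
  unfold count at h5
  obtain ⟨x, hx⟩ := card_pos.1 h5
  exact ⟨x, (mem_filter.1 hx).2⟩

/-- **The totient system near products of thin families and near determinants.** Let `h`, `d ≥ 2`, `m`, `A`, `B`, `C`,
`W`, `U` and `0 < ε < 1` be given, and let `P` be sufficiently large. Let `P = N_1 ⋯ N_d` with `N_k ^ m ≥ P` for all `k`,
and let `u_k : I_k → ℤ` be finite families with `Thin h C P (N_k) (u_k)`.

(1) Let `c ≠ 0` be an integer with `|c| ≤ (log P) ^ B` and let `R_1, …, R_d` be arbitrary integral functions of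
`i ∈ I_1 × ⋯ × I_d` such that `R_k` does not depend on the `k`-th coordinate, with
`v(i) = c ∏ u_k(i_k) + ∑ R_k(i) ≤ P (log P) ^ B` for all `i`. For all but at most the share `(log P) ^ (-U)` of the `i`,
ALL the integers `n ≥ 2` with `|n - v(i)| ≤ (log P) ^ W` have the property `Holds ε A n`.

(2) The same holds for `v(i)` = the determinant of the matrix with the diagonal entries `u_k(i_k)` and arbitrary fixed
integral entries off the diagonal, if `v(i) ≤ P (log P) ^ B` for all `i`. -/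
theorem result (h d m A B C W U : ℕ) (hh : 1 ≤ h) (hd : 2 ≤ d) (ε : ℝ) (hε : 0 < ε) (hε1 : ε < 1) :
    ∃ P₀ : ℕ, ∀ (P : ℕ) (N : Fin d → ℕ), P₀ ≤ P → ∏ k, N k = P → (∀ k, P ≤ N k ^ m) →
      ∀ (I : Fin d → Type) [∀ k, Fintype (I k)] (u : ∀ k, I k → ℤ), (∀ k, Thin h C P (N k) (u k)) →
      (∀ c : ℤ, c ≠ 0 → |(c : ℝ)| ≤ Real.log P ^ B →
        ∀ R : Fin d → (∀ k, I k) → ℤ, (∀ k i x, R k (Function.update i k x) = R k i) →
        (∀ i : ∀ k, I k, ((c * ∏ k, u k (i k) + ∑ k, R k i : ℤ) : ℝ) ≤ P * Real.log P ^ B) →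
        (exceptions ε A W P (fun i : ∀ k, I k => c * ∏ k, u k (i k) + ∑ k, R k i) : ℝ) ≤
          Fintype.card (∀ k, I k) / Real.log P ^ U) ∧
      (∀ M : Matrix (Fin d) (Fin d) ℤ,
        (∀ i : ∀ k, I k, ((Matrix.of fun k l => if k = l then u k (i k) else M k l).det : ℝ) ≤ P * Real.log P ^ B) →
        (exceptions ε A W P (fun i : ∀ k, I k => (Matrix.of fun k l => if k = l then u k (i k) else M k l).det) : ℝ) ≤
          Fintype.card (∀ k, I k) / Real.log P ^ U) := by
  classical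
  obtain ⟨r, rfl⟩ : ∃ r, d = r + 2 := ⟨d - 2, by omega⟩
  obtain ⟨P₁, h1⟩ := Pool.Agent.U108.ML.near_double_prod h r (m + 2) A B C W U 4 hh (by omega) ε hε (fun n => 2 ≤ n → Holds ε A n)
    (fun n _ hw hn => holds_of hε1 hn hw)
  refine ⟨P₁ + 3, ?_⟩
  intro P N hP hNP hNm I _ u hu
  have hlP : (1 : ℝ) ≤ Real.log P := by
    rw [Real.le_log_iff_exp_le (by exact_mod_cast (by omega : 0 < P))]
    have h3 : (3 : ℝ) ≤ P := by exact_mod_cast (by omega : 3 ≤ P)
    have := Real.exp_one_lt_d9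
    linarith
  have hNm' : ∀ k, P ≤ N k ^ (m + 2) := by
    intro k
    have hN0 : 0 < N k := by
      rcases Nat.eq_zero_or_pos (N k) with h0 | h0
      · have : ∏ k, N k = 0 := prod_eq_zero (mem_univ k) h0
        omega
      · exact h0
    exact (hNm k).trans (Nat.pow_le_pow_right hN0 (by omega))
  have main : ∀ c : ℤ, c ≠ 0 → |(c : ℝ)| ≤ Real.log P ^ B →
      ∀ R : Fin (r + 2) → (∀ k, I k) → ℤ, (∀ k i x, R k (Function.update i k x) = R k i) →
      (∀ i : ∀ k, I k, ((c * ∏ k, u k (i k) + ∑ k, R k i : ℤ) : ℝ) ≤ P * Real.log P ^ B) →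
      (exceptions ε A W P (fun i : ∀ k, I k => c * ∏ k, u k (i k) + ∑ k, R k i) : ℝ) ≤
        Fintype.card (∀ k, I k) / Real.log P ^ U := by
    intro c hc hcB R hR hv
    refine h1 N P (by omega) hNP hNm' I u (fun k => (hu k).1) (fun k => (hu k).2) c hc hcB R hR
      (fun i => (hv i).trans (le_of_eq (mul_comm _ _))) _ ?_
    intro i hi
    rw [mem_filter] at hi
    obtain ⟨n, h2, h3, h4⟩ := hi.2
    refine ⟨n, by omega, ?_, fun h5 => h4 (h5 h2)⟩
    push_cast
    push_cast at h3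
    exact h3
  refine ⟨main, ?_⟩
  intro M hv
  obtain ⟨R, hR1, hR2⟩ := Pool.Agent.U108.ML.det_withDiag (by omega : 1 ≤ r + 2) M
  have e : ∀ i : ∀ k, I k, (Matrix.of fun k l => if k = l then u k (i k) else M k l).det =
      1 * ∏ k, u k (i k) + ∑ k, R k (fun k => u k (i k)) := by
    intro i
    rw [one_mul]
    exact hR2 (fun k => u k (i k))
  have e2 : (fun i : ∀ k, I k => (Matrix.of fun k l => if k = l then u k (i k) else M k l).det) =
      (fun i : ∀ k, I k => 1 * ∏ k, u k (i k) + ∑ k, R k (fun k => u k (i k))) := funext e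
  rw [e2]
  refine main 1 one_ne_zero ?_ (fun k i => R k (fun k => u k (i k))) ?_ ?_
  · rw [Int.cast_one, abs_one]
    exact one_le_pow₀ hlP
  · intro k i x
    have h2 : (fun l => u l (Function.update i k x l)) = Function.update (fun l => u l (i l)) k (u k x) := by
      funext l
      by_cases hl : l = k
      · subst hl
        rw [Function.update_self, Function.update_self]
      · rw [Function.update_of_ne hl, Function.update_of_ne hl]
    rw [h2, hR1]
  · intro i
    have := hv i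
    rw [e i] at this
    exact this

end Pool.Agent.Results.MP_967f73_nt.ProductsThinFamilies
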