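import Pool.Agent.W23.SG.All

/-!
# Almost primes `N - p` for the elements `p` of arbitrary sparse sets of primes

A Chen type theorem for arbitrary sets `A` of primes up to `X` with at least `X ^ (1 - η)` elements:
with at most `C X / (|A| log X)` exceptions every integer `N`, `|N| ≤ 2 X`, can be written as
`N = p ± m s` for a positive proportion of the elements `p` of `A`, where all prime factors of `m` are
smaller than `X ^ ε` and `s` has at most two prime factors, both larger than `X ^ (1 / 7)`.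
-/

set_option autoImplicit false

open Finset

namespace Pool.Agent.Results.MP_967f73_nt.SparseSetsAlmostPrimes

/-- `p ≠ N` and `|N - p| = m s`, where all prime factors of `m` are smaller than `X ^ ε` and `s` has at
most two prime factors, counted with multiplicity, all of them larger than `X ^ (1 / 7)`. -/
def Rep (X : ℕ) (ε : ℝ) (N : ℤ) (p : ℕ) : Prop :=
  (p : ℤ) ≠ N ∧ ∃ m s : ℕ, (N - p).natAbs = m * s ∧
    (∀ l : ℕ, l.Prime → l ∣ m → (l : ℝ) < (X : ℝ) ^ ε) ∧
    s.primeFactorsList.length ≤ 2 ∧ ∀ q : ℕ, q.Prime → q ∣ s → (X : ℝ) ^ (1 / 7 : ℝ) < q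

/-- The number of the elements `p` of `A` with `Rep X ε N p`. -/
noncomputable def count (X : ℕ) (ε : ℝ) (A : Set ℕ) (N : ℤ) : ℕ :=
  {p : ℕ | p ∈ A ∧ Rep X ε N p}.ncard

/-- The integers `N`, `|N| ≤ 2 X`, for which fewer than `c |A|` elements `p` of `A` satisfy
`Rep X ε N p`. -/
def exceptional (X : ℕ) (ε c : ℝ) (A : Set ℕ) : Set ℤ :=
  {N : ℤ | |N| ≤ 2 * X ∧ (count X ε A N : ℝ) < c * A.ncard}

/-- **Almost primes `|N - p|` for the elements `p` of arbitrary sparse sets of primes.** For every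
`ε > 0` there are `c, η > 0` and `C` such that for all `X ≥ 2` and every set `A` of primes `p ≤ X` with at
least `X ^ (1 - η)` elements: for all but at most `C X / (|A| log X)` of the integers `N`, `|N| ≤ 2 X`,
at least `c |A|` of the elements `p` of `A` satisfy `p ≠ N` and `|N - p| = m s`, where all prime factors
of `m` are smaller than `X ^ ε` and `s` has at most two prime factors, all larger than
`X ^ (1 / 7)`. -/
theorem result (ε : ℝ) (hε : 0 < ε) :
    ∃ c C η : ℝ, 0 < c ∧ 0 < η ∧ ∀ X : ℕ, 2 ≤ X → ∀ A : Set ℕ,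
      (∀ p ∈ A, p.Prime ∧ p ≤ X) → (X : ℝ) ^ (1 - η) ≤ A.ncard →
      (exceptional X ε c A).Finite ∧
        ((exceptional X ε c A).ncard : ℝ) ≤ C * (X / (A.ncard * Real.log X)) := by
  classical
  obtain ⟨c, C, η, hc, hη, h⟩ := Pool.Agent.W23.SG.sparse_sets ε hε
  refine ⟨c, C, η, hc, hη, ?_⟩
  intro X hX A hA hcard
  have hAfin : A.Finite := (Set.finite_Iic X).subset fun p hp => (hA p hp).2
  have hsub0 : exceptional X ε c A ⊆ ((Icc (-(2 * X : ℤ)) (2 * X) : Finset ℤ) : Set ℤ) := by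
    intro N hN
    rw [mem_coe, mem_Icc]
    exact abs_le.1 hN.1
  have hfin : (exceptional X ε c A).Finite := (finite_toSet _).subset hsub0
  refine ⟨hfin, ?_⟩
  obtain ⟨B, rfl⟩ : ∃ B : Finset ℕ, A = (B : Set ℕ) := ⟨hAfin.toFinset, by simp⟩
  have hB : ∀ p ∈ B, p.Prime ∧ p ≤ X := fun p hp => hA p (mem_coe.2 hp)
  rw [Set.ncard_coe_finset] at hcard ⊢
  refine le_trans ?_ (h X hX B hB hcard)
  rw [← Set.ncard_coe_finset]
  refine Nat.cast_le.2 (Set.ncard_le_ncard ?_ (finite_toSet _))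
  intro N hN
  have hN0 := hsub0 hN
  rw [mem_coe, mem_filter]
  refine ⟨hN0, lt_of_le_of_lt ?_ (by have := hN.2; rwa [Set.ncard_coe_finset] at this)⟩
  have hf : {p : ℕ | p ∈ (B : Set ℕ) ∧ Rep X ε N p}.Finite :=
    (finite_toSet B).subset fun p hp => hp.1
  unfold count
  rw [← Set.ncard_coe_finset]
  refine Nat.cast_le.2 (Set.ncard_le_ncard ?_ hf)
  intro p hp
  rw [mem_coe, mem_filter] at hp
  obtain ⟨hp1, hp2, m, s, h1, h2, h3, h4⟩ := hp
  have hne : (N - p).natAbs ≠ 0 := by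
    rw [Int.natAbs_ne_zero]
    intro h0
    exact hp2 (by omega)
  refine ⟨mem_coe.2 hp1, hp2, m, s, h1, h2, h3, fun q hq hqs => h4 q (Nat.mem_primeFactors.2 ⟨hq, hqs, ?_⟩)⟩
  rintro rfl
  rw [Nat.mul_zero] at h1
  exact hne h1

end Pool.Agent.Results.MP_967f73_nt.SparseSetsAlmostPrimes
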